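import Pool.Agent.H26.TR.Ns
import Pool.Agent.H16.CA.Core

set_option autoImplicit false

/-!
Full states of a code in which the words of every full state split (MP_a46c6f_co, full Q1): the results of
`H26/TR/Full`, `Pair`, `Glob`, `Ns` and `H16/CA` under this weaker hypothesis.
-/

namespace Pool.Agent.H26.TW

open Finset Pool.Agent.H98.Code Pool.Agent.H26.TR
open Pool.Agent.H45.TR (W N sg Parts eq_zero_h nmem_range_iff mem_range_iff le_D)

variable {V : Type} [Fintype V] [DecidableEq V]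

/-- the standing hypotheses, without splitting -/
structure HypW (L : Submodule (ZMod 2) (V → K)) (e : V) (D : V → K) : Prop where
  iso : ∀ u ∈ L, ∀ w ∈ L, form u w = 0
  noz : ∀ u ∈ L, (∀ v, v ≠ e → u v = 0) → u e ≠ z
  letter : ∀ v, v ≠ e → (D v).1 = 1
  full : ∀ v, v ≠ e → ∃ u, KD L D e u ∧ u v ≠ 0

/-- the words of the full states split -/
def SplitFull (L : Submodule (ZMod 2) (V → K)) : Prop :=
  ∀ (e : V) (D : V → K), (∀ v, v ≠ e → (D v).1 = 1) →
    (∀ v, v ≠ e → ∃ u, KD L D e u ∧ u v ≠ 0) →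
    ∀ u, KD L D e u → u ≠ 0 → u e = 0 → ∃ g, Splits L u g

/-- the words of a state -/
def Lst (L : Submodule (ZMod 2) (V → K)) (D : V → K) (e : V) : Submodule (ZMod 2) (V → K) where
  carrier := {u | KD L D e u}
  zero_mem' := KD.zero
  add_mem' := fun hu hw => KD.add hu hw
  smul_mem' := by
    intro c u hu
    have hc : ∀ c : ZMod 2, c = 0 ∨ c = 1 := by decide
    rcases hc c with h | h
    · rw [h, zero_smul]; exact KD.zero
    · rw [h, one_smul]; exact hu

variable {L : Submodule (ZMod 2) (V → K)} {e : V} {D : V → K} {P : Finset (Finset V)}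
  {h : Finset V → V}

theorem HypW.D_ne (h : HypW L e D) {v : V} (hv : v ≠ e) : D v ≠ 0 := by
  intro h0
  have := h.letter v hv
  rw [h0] at this
  exact absurd this (by decide)


/-- splitting inside the state -/
theorem HypW.split_in (hS : SplitFull L) (h : HypW L e D) {u : V → K} (hu : KD L D e u) (hu0 : u ≠ 0) (hue : u e = 0) :
    ∃ c₁ c₂, KD L D e c₁ ∧ KD L D e c₂ ∧ c₁ e = z ∧ c₂ e = z ∧ u = c₁ + c₂ ∧
      ∀ v, v ≠ e → c₁ v = 0 ∨ c₂ v = 0 := by
  have hzf : ZFree u := by
    intro v hv1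
    by_cases hv : v = e
    · rw [hv, hue] at hv1
      exact absurd hv1 (by decide)
    · rcases hu.2.1 v hv with h1 | h1
      · rw [h1] at hv1
        exact absurd hv1 (by decide)
      · have := h.letter v hv
        rw [← h1, hv1] at this
        exact absurd this (by decide)
  obtain ⟨g, c₁, hc₁, c₂, hc₂, hsum', hg1, hg2, hd⟩ := hS e D h.letter h.full u hu hu0 hue
  have hsum : u = c₁ + c₂ := hsum'.symm
  have hval : ∀ v, v ≠ g → (c₁ v = 0 ∨ c₁ v = u v) ∧ (c₂ v = 0 ∨ c₂ v = u v) := by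
    intro v hv
    have hs : u v = c₁ v + c₂ v := by rw [hsum]; rfl
    rcases hd v hv with h1 | h1
    · rw [h1, zero_add] at hs
      exact ⟨Or.inl h1, Or.inr hs.symm⟩
    · rw [h1, add_zero] at hs
      exact ⟨Or.inr hs.symm, Or.inl h1⟩
  have hge : g = e := by
    by_contra hne
    obtain ⟨k, hk, hkg⟩ := h.full g hne
    have hkD : k g = D g := by
      rcases hk.2.1 g hne with h1 | h1
      · exact absurd h1 hkg
      · exact h1
    have hform := h.iso c₁ hc₁ k hk.1
    have hone : ∑ v, kf (c₁ v) (k v) = kf (c₁ g) (k g) := by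
      apply Finset.sum_eq_single g
      · intro v _ hv
        by_cases hve : v = e
        · have : c₁ v = 0 := by
            rcases (hval v hv).1 with h1 | h1
            · exact h1
            · rw [h1, hve, hue]
          rw [this]; simp [kf]
        · have h1 : c₁ v = 0 ∨ c₁ v = D v := by
            rcases (hval v hv).1 with h1 | h1
            · exact Or.inl h1
            · rcases hu.2.1 v hve with h2 | h2
              · left; rw [h1, h2]
              · right; rw [h1, h2]
          rcases h1 with h1 | h1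
          · rw [h1]; simp [kf]
          · rcases hk.2.1 v hve with h2 | h2
            · rw [h2]; simp [kf]
            · rw [h1, h2]
              unfold kf
              rw [mul_comm]
              exact CharTwo.add_self_eq_zero _
      · intro hg'
        exact absurd (Finset.mem_univ g) hg'
    unfold form at hform
    rw [hone, hg1, hkD] at hform
    have hl := h.letter g hne
    unfold kf z at hform
    rw [hl] at hform
    exact absurd hform (by simp)
  subst hge
  refine ⟨c₁, c₂, ⟨hc₁, ?_, Or.inr hg1⟩, ⟨hc₂, ?_, Or.inr hg2⟩, hg1, hg2, hsum, hd⟩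
  · intro v hv
    rcases (hval v hv).1 with h1 | h1
    · exact Or.inl h1
    · rw [h1]; exact hu.2.1 v hv
  · intro v hv
    rcases (hval v hv).2 with h1 | h1
    · exact Or.inl h1
    · rw [h1]; exact hu.2.1 v hv



theorem HypW.hyp (hS : SplitFull L) (h : HypW L e D) : Hyp (Lst L D e) e D := by
  refine ⟨fun u hu w hw => h.iso u hu.1 w hw.1, fun u hu => h.noz u hu.1, ?_, h.letter, ?_⟩
  · intro u hu hu0 _ hue
    obtain ⟨c₁, c₂, h1, h2, h3, h4, h5, h6⟩ := h.split_in hS hu hu0 hue
    exact ⟨e, c₁, h1, c₂, h2, h5.symm, h3, h4, h6⟩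
  · intro v hv
    obtain ⟨u, hu, huv⟩ := h.full v hv
    exact ⟨u, ⟨hu, hu.2.1, hu.2.2⟩, huv⟩

theorem HypW.exists_parts (hS : SplitFull L) (h : HypW L e D) : ∃ P, IsParts L e D P := by
  obtain ⟨P, hP⟩ := (h.hyp hS).exists_parts
  exact ⟨P, ⟨fun M hM => ⟨(hP.mem M hM).1, (hP.mem M hM).2.1, (hP.mem M hM).2.2.1⟩, hP.disj, hP.cover,
    fun u hu => hP.union u ⟨hu, hu.2.1, hu.2.2⟩⟩⟩

theorem HypW.exists_total (hS : SplitFull L) (h : HypW L e D) :
    ∃ u, KD L D e u ∧ ∀ v, v ≠ e → u v = D v := by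
  obtain ⟨u, hu, h1⟩ := (h.hyp hS).exists_total
  exact ⟨u, hu.1, h1⟩

/-- Uniqueness of the full state at `e` up to a simultaneous change, when the only `{0,z}`-words are
`0` and `z1`. -/
theorem HypW.unique' {D' : V → K} (hS : SplitFull L) (h : HypW L e D) (h' : HypW L e D')
    (hz : ∀ u ∈ L, ZOnly u → u = 0 ∨ ∀ v, u v = z) :
    (∀ v, v ≠ e → D v = D' v) ∨ (∀ v, v ≠ e → D v = D' v + z) := by
  obtain ⟨u, hu, hut⟩ := h.exists_total hS
  obtain ⟨w, hw, hwt⟩ := h'.exists_total hS
  have h0 : u + w = 0 ∨ ∀ v, (u + w) v = z := by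
    apply hz _ (L.add_mem hu.1 hw.1)
    intro v
    by_cases hv : v = e
    · rw [hv, Pi.add_apply]
      exact K_fst_add _ _ hu.2.2 hw.2.2
    · rw [Pi.add_apply, hut v hv, hwt v hv, Prod.fst_add, h.letter v hv, h'.letter v hv]
      decide
  rcases h0 with h0 | h0
  · left
    intro v hv
    have h1 := congrFun h0 v
    rw [Pi.add_apply, hut v hv, hwt v hv, Pi.zero_apply] at h1
    have h2 : D v + D' v + D' v = D' v := by rw [h1, zero_add]
    rw [add_assoc, K_add_self, add_zero] at h2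
    exact h2
  · right
    intro v hv
    have h1 := h0 v
    rw [Pi.add_apply, hut v hv, hwt v hv] at h1
    have h2 : D v + D' v + D' v = z + D' v := by rw [h1]
    rw [add_assoc, K_add_self, add_zero] at h2
    rw [h2, add_comm]


/-- changing the state on one part: if the changed state is still full on this part, it is a full state. -/
theorem hyp_change (hP : IsParts L e D P) (h : HypW L e D) {M : Finset V} (hM : M ∈ P)
    (D' : V → K) (hoff : ∀ v, v ∉ M → D' v = D v) (hlet : ∀ v, v ∈ M → (D' v).1 = 1)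
    (hfull : ∀ v, v ∈ M → ∃ u, KD L D' e u ∧ u v ≠ 0) : HypW L e D' := by
  have hlet' : ∀ v, v ≠ e → (D' v).1 = 1 := by
    intro v hv
    by_cases hvM : v ∈ M
    · exact hlet v hvM
    · rw [hoff v hvM]; exact h.letter v hv
  refine ⟨h.iso, h.noz, hlet', ?_⟩
  intro v hv
  by_cases hvM : v ∈ M
  · exact hfull v hvM
  · obtain ⟨M', hM', hvM'⟩ := hP.cover v hv
    have hne : M' ≠ M := by
      rintro rfl
      exact hvM hvM'
    refine ⟨pw D e M', ⟨(hP.mem M' hM').2.2, ?_, Or.inr (by simp [pw])⟩, ?_⟩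
    · intro w hw
      unfold pw
      rw [if_neg hw]
      by_cases hwM' : w ∈ M'
      · rw [if_pos hwM']
        right
        rw [hoff w (Finset.disjoint_left.1 (hP.disj M' hM' M hM hne) hwM')]
      · rw [if_neg hwM']
        exact Or.inl rfl
    · unfold pw
      rw [if_neg hv, if_pos hvM']
      exact h.D_ne hv


theorem HypW.sig_ne (h : HypW L e D) (v : V) : sig D e v ≠ 0 := by
  unfold sig
  by_cases hv : v = e
  · rw [if_pos hv]; decide
  · rw [if_neg hv]; exact h.D_ne hv


theorem HypW.mem_pairCode (h : HypW L e D) {M : Finset V} (heM : e ∉ M) (a : {v // v ∈ M} → K) :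
    a ∈ pairCode L D e M ↔ ∃ u ∈ L, (∀ v, v ∉ M → v ≠ e → u v = 0 ∨ u v = D v) ∧
      (u e = 0 ∨ u e = z) ∧ a = fun x => u x.1 := by
  have hr : ∀ v : V, v ∉ Set.range (fun x : {v // v ∈ M} => x.1) ↔ v ∉ M := by
    intro v
    simp
  constructor
  · rintro ⟨u, hu, hk, rfl⟩
    refine ⟨u, hu, ?_, ?_, rfl⟩
    · intro v hv hve
      have := hk v ((hr v).2 hv)
      rw [kf_eq_zero_iff _ _ (h.sig_ne v)] at this
      rwa [sig, if_neg hve] at this
    · have := hk e ((hr e).2 heM)
      rw [kf_eq_zero_iff _ _ (h.sig_ne e)] at this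
      rwa [sig, if_pos rfl] at this
  · rintro ⟨u, hu, h1, h2, rfl⟩
    refine ⟨u, hu, ?_, rfl⟩
    intro v hv
    rw [kf_eq_zero_iff _ _ (h.sig_ne v)]
    by_cases hve : v = e
    · rw [hve, sig, if_pos rfl]
      exact h2
    · rw [sig, if_neg hve]
      exact h1 v ((hr v).1 hv) hve


/-- a full state which differs from `D` only on one part is `D`, if there is another part. -/
theorem glob_unique (hS : SplitFull L) (hP : IsParts L e D P) (h : HypW L e D)
    (hz : ∀ u ∈ L, ZOnly u → u = 0 ∨ ∀ v, u v = z) {M M' : Finset V}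
    (hM : M ∈ P) (hM' : M' ∈ P) (hne : M' ≠ M) {D' : V → K} (h' : HypW L e D')
    (hoff : ∀ v, v ∉ M → D' v = D v) : ∀ v, v ≠ e → D v = D' v := by
  rcases h.unique' hS h' hz with h1 | h1
  · exact h1
  · exfalso
    obtain ⟨w, hw⟩ := Finset.nonempty_iff_ne_empty.2 (hP.mem M' hM').1
    have hwM : w ∉ M := Finset.disjoint_left.1 (hP.disj M' hM' M hM hne) hw
    have hwe : w ≠ e := fun h0 => (hP.mem M' hM').2.1 (h0 ▸ hw)
    have h2 := h1 w hwe
    rw [hoff w hwM] at h2
    have h3 : D w + D w = z := by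
      nth_rewrite 1 [h2]
      rw [add_comm, ← add_assoc, K_add_self, zero_add]
    rw [K_add_self] at h3
    exact absurd h3 (by decide)


/-- no `{0,z}`-word in the pair code -/
theorem glob_noZ (hS : SplitFull L) (hP : IsParts L e D P) (h : HypW L e D)
    (hz : ∀ u ∈ L, ZOnly u → u = 0 ∨ ∀ v, u v = z) {M M' : Finset V}
    (hM : M ∈ P) (hM' : M' ∈ P) (hMM : M' ≠ M) {u : V → K} (hu : u ∈ L)
    (hoff : ∀ v, v ∉ M → v ≠ e → u v = 0 ∨ u v = D v)
    (hue : u e = 0 ∨ u e = z) (huM : ∀ v, v ∈ M → (u v).1 = 0) : ∀ v, v ∈ M → u v = 0 := by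
  have heM : e ∉ M := (hP.mem M hM).2.1
  set D' : V → K := fun v => if v ∈ M then D v + u v else D v with hD'
  have hne : ∀ v, v ∈ M → v ≠ e := fun v hv h0 => heM (h0 ▸ hv)
  have hlet : ∀ v, v ∈ M → (D' v).1 = 1 := by
    intro v hv
    rw [hD']
    simp only [if_pos hv]
    rw [Prod.fst_add, h.letter v (hne v hv), huM v hv, add_zero]
  have hw : KD L D' e (pw D e M + u) := by
    refine ⟨L.add_mem (hP.mem M hM).2.2 hu, ?_, ?_⟩
    · intro w hw
      rw [Pi.add_apply, hD']
      unfold pw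
      by_cases hwM : w ∈ M
      · right
        simp only [if_neg hw, if_pos hwM]
      · simp only [if_neg hw, if_neg hwM, zero_add]
        exact hoff w hwM hw
    · rw [Pi.add_apply]
      have : pw D e M e = z := by simp [pw]
      rw [this]
      rcases hue with h1 | h1
      · right; rw [h1, add_zero]
      · left; rw [h1, K_add_self]
  have hoff' : ∀ v, v ∉ M → D' v = D v := by
    intro v hv
    rw [hD']
    simp only [if_neg hv]
  have h' : HypW L e D' := by
    refine hyp_change hP h hM D' hoff' hlet ?_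
    intro v hv
    refine ⟨_, hw, ?_⟩
    rw [Pi.add_apply]
    unfold pw
    rw [if_neg (hne v hv), if_pos hv]
    intro h0
    have h1 := hlet v hv
    rw [hD'] at h1
    simp only [if_pos hv] at h1
    rw [h0] at h1
    exact absurd h1 (by decide)
  intro v hv
  have h1 := glob_unique hS hP h hz hM hM' hMM h' hoff' v (hne v hv)
  rw [hD'] at h1
  simp only [if_pos hv] at h1
  have h2 : D v + D v = D v + (D v + u v) := by rw [← h1]
  rw [K_add_self, ← add_assoc, K_add_self, zero_add] at h2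
  exact h2.symm


theorem glob_noZ_N (hS : SplitFull L) (H : HypW L e D) (hP : IsParts L e D P)
    (hz : ∀ u ∈ L, ZOnly u → u = 0 ∨ ∀ v, u v = z) {M₀ M' : Finset V}
    (hM₀ : M₀ ∈ P) (hM' : M' ∈ P) (hne : M' ≠ M₀) (hh : ∀ M ∈ P.erase M₀, h M ∈ M) :
    NoZ (N L D (P.erase M₀) h) := by
  intro a ha hza
  obtain ⟨u, hu, hus, rfl⟩ := ha
  have heW : ∀ M ∈ P.erase M₀, e ∉ M := fun M hM => (hP.mem M (Finset.mem_of_mem_erase hM)).2.1
  have hue : (u e).1 = 0 := hza ⟨e, heW⟩
  have hsub : P.erase M₀ ⊆ P := Finset.erase_subset _ _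
  have hle : ∀ v, v ∉ M₀ → v ≠ e → u v = 0 ∨ u v = D v := by
    intro v hv hve
    obtain ⟨M, hM, hvM⟩ := hP.cover v hve
    have hMM : M ≠ M₀ := by
      rintro rfl
      exact hv hvM
    exact le_D H.iso (Pool.Agent.H16.CA.toParts hP) hsub H.letter hh hu hue hus
      ((nmem_range_iff _ v).2 ⟨M, Finset.mem_erase.2 ⟨hMM, hM⟩, hvM⟩)
  have h0 : ∀ v, v ∈ M₀ → (u v).1 = 0 := by
    intro v hv
    have hvW : ∀ M ∈ P.erase M₀, v ∉ M := by
      intro M hM hvM
      have hM1 := Finset.mem_erase.1 hM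
      exact Finset.disjoint_left.1 (hP.disj M hM1.2 M₀ hM₀ hM1.1) hvM hv
    exact hza ⟨v, hvW⟩
  have hM0 : ∀ v, v ∈ M₀ → u v = 0 :=
    glob_noZ hS hP H hz hM₀ hM' hne hu hle ((fst_zero_iff _).1 hue) h0
  have hKD : KD L D e u := by
    refine ⟨hu, ?_, (fst_zero_iff _).1 hue⟩
    intro v hve
    by_cases hv : v ∈ M₀
    · exact Or.inl (hM0 v hv)
    · exact hle v hv hve
  have hall : ∀ v, v ≠ e → u v = 0 := by
    intro v hve
    obtain ⟨M, hM, hvM⟩ := hP.cover v hve
    by_cases hMM : M = M₀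
    · exact hM0 v (hMM ▸ hvM)
    · have hME : M ∈ P.erase M₀ := Finset.mem_erase.2 ⟨hMM, hM⟩
      have h1 : u (h M) = 0 := eq_zero_h H.iso (Pool.Agent.H16.CA.toParts hP) hsub H.letter hh hu hue hus hME
      rcases hP.union u hKD M hM with h2 | h2
      · have := (mem_sup.1 (h2 (hh M hME))).2
        exact absurd h1 this
      · by_contra hne'
        exact Finset.disjoint_left.1 h2 hvM (mem_sup.2 ⟨hve, hne'⟩)
  have hu0 : u = 0 := by
    funext v
    by_cases hve : v = e
    · rw [hve]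
      rcases (fst_zero_iff _).1 hue with h1 | h1
      · exact h1
      · exact absurd h1 (H.noz u hu hall)
    · exact hall v hve
  rw [hu0]
  rfl


/-- another part -/
theorem exists_other (h : HypW L e D) (hP : IsParts L e D P) (hD : D ∈ L) (hDe : D e = 0)
    {M : Finset V} (hM : M ∈ P) : ∃ M' ∈ P, M' ≠ M := by
  by_contra hc
  push Not at hc
  have h1 : pw D e M + D ∈ L := L.add_mem (hP.mem M hM).2.2 hD
  refine h.noz _ h1 ?_ ?_
  · intro v hv
    obtain ⟨M', hM', hvM'⟩ := hP.cover v hv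
    rw [hc M' hM'] at hvM'
    rw [Pi.add_apply]
    unfold pw
    rw [if_neg hv, if_pos hvM', K_add_self]
  · rw [Pi.add_apply, hDe, add_zero]
    simp [pw]

/-- a part has an even number of elements when the constant word `z` is in the code -/
theorem even_card (h : HypW L e D) (hP : IsParts L e D P) (hz1 : (fun _ => z) ∈ L)
    {M : Finset V} (hM : M ∈ P) : ((M.card : ℕ) : ZMod 2) = 0 := by
  have h1 := h.iso _ (hP.mem M hM).2.2 _ hz1
  have heM := (hP.mem M hM).2.1
  have h2 : form (pw D e M) (fun _ => z) = ∑ v, if v ∈ M then (1 : ZMod 2) else 0 := by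
    unfold form
    refine Finset.sum_congr rfl fun v _ => ?_
    rw [kf_z_right]
    unfold pw
    by_cases hv : v = e
    · rw [if_pos hv, hv, if_neg heM]; rfl
    · rw [if_neg hv]
      by_cases hvM : v ∈ M
      · rw [if_pos hvM, if_pos hvM]; exact h.letter v hv
      · rw [if_neg hvM, if_neg hvM]; rfl
  rw [h2, Finset.sum_ite_mem, Finset.univ_inter, Finset.sum_const, nsmul_eq_mul, mul_one] at h1
  exact h1


/-- **core of the adapter** -/
theorem two_core (hL : IsCode L) (hz1 : (fun _ => z) ∈ L)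
    (hz : ∀ u ∈ L, ZOnly u → u = 0 ∨ u = fun _ => z) 
    (h : HypW L e D) (hP : IsParts L e D P) {M0 : Finset V} (hM0 : M0 ∈ P)
    (hmax : ∀ M ∈ P, M.card ≤ M0.card) (hk : ∃ M ∈ P, M ≠ M0)
    (hcode : IsCode (pairCode L D e M0)) (hnoz : NoZ (pairCode L D e M0))
    (hleaf : ∃ l p, Pool.Agent.H80.TB.LeafAt (pairCode L D e M0) l p)
    (heW : ∀ M ∈ P.erase M0, e ∉ M)
    (hroot : ∀ t : Finset V → V, (∀ M ∈ P.erase M0, t M ∈ M) →
      Pool.Agent.H80.TB.RootLeaf (Pool.Agent.H45.TR.N L D (P.erase M0) t) ⟨e, heW⟩) :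
    ∃ g a b : V, a ≠ b ∧ a ≠ g ∧ b ≠ g ∧
      ∃ c ∈ L, c g = z ∧ (c a).1 = 1 ∧ (c b).1 = 1 ∧ ∀ v, v ≠ g → v ≠ a → v ≠ b → c v = 0 := by
  classical
  have heM0 : e ∉ M0 := (hP.mem M0 hM0).2.1
  -- rows
  have hrow : ∀ m : V, ∃ y : V → K, m ∈ M0 → (y ∈ L ∧ (y m).1 = 1 ∧ (∀ v ∈ M0, v ≠ m → (y v).1 = 0) ∧
      (∀ v, v ∉ M0 → v ≠ e → y v = 0 ∨ y v = D v) ∧ (y e).1 = 0) := by
    intro m
    by_cases hm : m ∈ M0
    · obtain ⟨r, hr, hr1, hr0⟩ := exists_row hcode hnoz ⟨m, hm⟩
      rw [h.mem_pairCode heM0] at hr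
      obtain ⟨u, hu, h1, h2, rfl⟩ := hr
      refine ⟨u, fun _ => ⟨hu, hr1, ?_, h1, ?_⟩⟩
      · intro v hv hvm
        exact hr0 ⟨v, hv⟩ (fun h0 => hvm (congrArg Subtype.val h0))
      · rcases h2 with h2 | h2
        · rw [h2]; rfl
        · rw [h2]; rfl
    · exact ⟨0, fun h0 => absurd h0 hm⟩
  choose y hy using hrow
  -- the row of the leaf
  obtain ⟨l, p, hlp, c, hc, hcl, hcp, hc0⟩ := hleaf
  have hyl := hy l.1 l.2
  have hylc : (fun x : {v // v ∈ M0} => y l.1 x.1) = c := by
    apply eq_of_fst hnoz _ hc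
    · intro x
      by_cases hx : x = l
      · rw [hx, hcl]; exact hyl.2.1
      · rw [hyl.2.2.1 x.1 x.2 (fun h0 => hx (Subtype.ext h0))]
        by_cases hxp : x = p
        · rw [hxp, hcp]; rfl
        · rw [hc0 x hx hxp]; rfl
    · rw [h.mem_pairCode heM0]
      refine ⟨y l.1, hyl.1, hyl.2.2.2.1, ?_, rfl⟩
      exact K_cases _ hyl.2.2.2.2
  have hT := Pool.Agent.H16.CA.toParts hP
  have hQ : P.erase M0 ⊆ P := Finset.erase_subset _ _
  exact
    Pool.Agent.H74.CT.two_letter_word L hL.iso hz1 e D h.letter P hP.mem hP.disj hP.cover M0 hM0 hmax hk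
      y (fun m hm => hy m hm)
      ⟨l.1, l.2, p.1, p.2, fun h0 => hlp (Subtype.ext h0).symm, by
        intro v hv hvl
        have h1 := congrFun hylc ⟨v, hv⟩
        simp only at h1
        rw [h1]
        constructor
        · intro h2
          by_contra hvp
          rw [hc0 ⟨v, hv⟩ (fun h0 => hvl (congrArg Subtype.val h0))
            (fun h0 => hvp (congrArg Subtype.val h0))] at h2
          exact absurd h2 (by decide)
        · intro h2
          have : (⟨v, hv⟩ : {v // v ∈ M0}) = p := Subtype.ext h2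
          rw [this]; exact hcp⟩
      (by
        intro t ht
        have ht' : ∀ M ∈ P.erase M0, t M ∈ M := fun M hM =>
          ht M (Finset.mem_of_mem_erase hM) (Finset.ne_of_mem_erase hM)
        obtain ⟨a, hae, r, ⟨u, hu, hus, rfl⟩, hre, hra, hr0⟩ := hroot t ht'
        have inW : ∀ v, v ∈ M0 → ∀ M ∈ P.erase M0, v ∉ M := by
          intro v hv M hM hvM
          exact Finset.disjoint_left.1 (hP.disj M (hQ hM) M0 hM0 (Finset.ne_of_mem_erase hM)) hvM hv
        refine ⟨u, hu, hre, ?_, ?_, ?_⟩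
        · intro v hv
          have hve : (⟨v, inW v hv⟩ : Pool.Agent.H45.TR.W (P.erase M0)) ≠ ⟨e, heW⟩ := fun h0 =>
            heM0 ((show v = e from congrArg Subtype.val h0) ▸ hv)
          by_cases hva : (⟨v, inW v hv⟩ : Pool.Agent.H45.TR.W (P.erase M0)) = a
          · have h1 : u v = z := by rw [← hva] at hra; exact hra
            rw [h1]; rfl
          · have h1 : u v = 0 := hr0 _ hve hva
            rw [h1]; rfl
        · have hae' : a.1 ≠ e := fun h0 => hae (Subtype.ext h0)
          obtain ⟨M, hM, haM⟩ := hP.cover a.1 hae'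
          have hMM : M = M0 := by
            by_contra hne
            exact a.2 M (Finset.mem_erase.2 ⟨hne, hM⟩) haM
          refine ⟨a.1, hMM ▸ haM, ?_⟩
          intro v hv
          have hve : (⟨v, inW v hv⟩ : Pool.Agent.H45.TR.W (P.erase M0)) ≠ ⟨e, heW⟩ := fun h0 =>
            heM0 ((show v = e from congrArg Subtype.val h0) ▸ hv)
          constructor
          · intro h1
            by_contra hne
            have h2 : u v = 0 := hr0 ⟨v, inW v hv⟩ hve (fun h0 => hne (congrArg Subtype.val h0))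
            rw [h2] at h1
            exact absurd h1 (by decide)
          · intro h1
            rw [h1]; exact hra
        · intro M hM hne v hv
          have hMQ : M ∈ P.erase M0 := Finset.mem_erase.2 ⟨hne, hM⟩
          have h1 := hus v ((Pool.Agent.H45.TR.nmem_range_iff _ v).2 ⟨M, hMQ, hv⟩)
          by_cases hvt : v = t M
          · rw [if_pos hvt]
            rw [hvt, Pool.Agent.H45.TR.sg_h hMQ] at h1
            rw [hvt]
            exact h1
          · rw [if_neg hvt]
            rw [Pool.Agent.H45.TR.sg_ne hT hQ ht' hMQ hv hvt] at h1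
            exact h1)


end Pool.Agent.H26.TW
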